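import Pool.Agent.P.MP_c1aa6a_an.ZE.Borel

set_option autoImplicit false
open MeasureTheory Filter

namespace Pool.Agent.Results.MP_c1aa6a_an.ZeroEntropyMixing

open Pool.Agent.P.MP_c1aa6a_an.Mix Pool.Agent.P.MP_c1aa6a_an.ZE in
/-- Every orbit equivalence relation of a Borel action of a Polish group on a standard Borel space
is Borel reducible to measure isomorphism of invertible measure preserving maps of the unit
interval that are mixing of all orders and have Kolmogorov-Sinai entropy zero. -/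
theorem result :
  ∀ μ : Measure ℝ, μ = volume.restrict (Set.Icc (0:ℝ) 1) →
  ∀ (G : Type) [TopologicalSpace G] [Group G] [IsTopologicalGroup G] [PolishSpace G]
    [MeasurableSpace G] [BorelSpace G]
    (X : Type) [MeasurableSpace X] [StandardBorelSpace X] [MulAction G X],
    Measurable (fun p : G × X => p.1 • p.2) →
  ∃ f : X → ℝ → ℝ,
    (∀ x, Ergodic (f x) μ ∧ ∃ g : ℝ → ℝ, MeasurePreserving g μ μ ∧
        (fun t => g (f x t)) =ᵐ[μ] id ∧ (fun t => f x (g t)) =ᵐ[μ] id) ∧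
    (∀ x (k : ℕ) (A : Fin k → Set ℝ), (∀ i, MeasurableSet (A i)) → ∀ n : ℕ → Fin k → ℕ,
        (∀ i j, i ≠ j → Tendsto (fun r => |(n r i : ℤ) - (n r j : ℤ)|) atTop atTop) →
        Tendsto (fun r => μ (⋂ i, (f x)^[n r i] ⁻¹' A i)) atTop (nhds (∏ i, μ (A i)))) ∧
    (∀ x (k : ℕ) (π : ℝ → Fin k), Measurable π →
        Tendsto (fun n : ℕ => (∑ w : Fin n → Fin k,
          Real.negMulLog (μ.real {t | ∀ i : Fin n, π ((f x)^[i] t) = w i})) / (n : ℝ))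
          atTop (nhds 0)) ∧
    (∀ A B : Set ℝ, MeasurableSet A → MeasurableSet B →
        Measurable (fun x => μ ((f x) ⁻¹' A ∩ B))) ∧
    (∀ x y : X, (∃ g : G, g • x = y) ↔
        ∃ φ ψ : ℝ → ℝ, MeasurePreserving φ μ μ ∧ MeasurePreserving ψ μ μ ∧
          (fun t => ψ (φ t)) =ᵐ[μ] id ∧ (fun t => φ (ψ t)) =ᵐ[μ] id ∧
          (fun t => φ (f x t)) =ᵐ[μ] (fun t => f y (φ t))) := by
  rintro μ rfl G _ _ _ _ _ _ X _ _ _ hm
  obtain ⟨f, h1, h2, h3⟩ := main_borel G X hm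
  have : IsProbabilityMeasure mI := ⟨by simp⟩
  refine ⟨f, fun x => ?_, fun x => (h1 x).1, fun x => (h1 x).2.1, h2,
    fun x y => (h3 x y).trans ⟨?_, ?_⟩⟩
  · obtain ⟨g, hg⟩ := (h1 x).2.2
    exact ⟨ergodic_of_mix hg.1 (h1 x).1, g, hg.2.1, hg.2.2.1, hg.2.2.2⟩
  · rintro ⟨φ, ψ, hc, hi⟩
    exact ⟨φ, ψ, hc.1, hc.2.1, hc.2.2.1, hc.2.2.2, hi⟩
  · rintro ⟨φ, ψ, a1, a2, a3, a4, a5⟩
    exact ⟨φ, ψ, ⟨a1, a2, a3, a4⟩, a5⟩

end Pool.Agent.Results.MP_c1aa6a_an.ZeroEntropyMixing
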